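import Pool.Agent.R141.CM.Elem

namespace Pool.Agent.R141.CM

open Finset

variable {ι X : Type} [Fintype ι] [LinearOrder ι]

set_option linter.unusedSectionVars false

theorem bd_eq {V : Type} [Fintype V] {n : ℕ} (c : (Fin (n + 1) → V) → ℚ) (w : Fin n → V) :
    bd c w = ∑ v, c (Fin.cons v w) := finsum_eq_sum_of_fintype _

/-- monotone paths in the cube, starting at `A` and adding `j 0, j 1, …` successively -/
def ch {k : ℕ} (A : Finset ι) (j : Fin k → ι) : Fin (k + 1) → Finset ι :=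
  fun i => A ∪ (univ.filter (fun a : Fin k => a.castSucc < i)).image j

/-- the tuple avoids the set -/
def Dis {k : ℕ} (A : Finset ι) (j : Fin k → ι) : Prop := ∀ a, j a ∉ A

instance {k : ℕ} (A : Finset ι) (j : Fin k → ι) : Decidable (Dis A j) := by
  unfold Dis
  infer_instance

theorem mem_ch {k : ℕ} (A : Finset ι) (j : Fin k → ι) (i : Fin (k + 1)) (v : ι) :
    v ∈ ch A j i ↔ v ∈ A ∨ ∃ a : Fin k, a.castSucc < i ∧ j a = v := by
  unfold ch
  rw [Finset.mem_union, Finset.mem_image]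
  simp

/-- the lifted chain -/
noncomputable def zz {k : ℕ} (c : (Fin k → ι) → ℚ) : (Fin (k + 1) → Finset ι) → ℚ :=
  fun x => ∑ A : Finset ι, ∑ j : Fin k → ι,
    if Dis A j then (-1) ^ A.card * c j * el (ch A j) x else 0

/-- the contribution of the `p`-th faces -/
noncomputable def TT {n : ℕ} (c : (Fin (n + 1) → ι) → ℚ) (w : Fin (n + 1) → Finset ι) (p : Fin (n + 2)) : ℚ :=
  ∑ A : Finset ι, ∑ j : Fin (n + 1) → ι,
    if Dis A j then (-1) ^ A.card * c j * el (ch A j ∘ p.succAbove) w else 0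

theorem bd_zz {n : ℕ} (c : (Fin (n + 1) → ι) → ℚ) (w : Fin (n + 1) → Finset ι) :
    bd (zz c) w = ∑ p : Fin (n + 2), (-1) ^ (p : ℕ) * TT c w p := by
  rw [bd_eq]
  unfold zz TT
  rw [Finset.sum_comm]
  simp only [Finset.mul_sum]
  rw [Finset.sum_comm (s := (univ : Finset (Fin (n + 2))))]
  apply Finset.sum_congr rfl
  intro A _
  rw [Finset.sum_comm, Finset.sum_comm (s := (univ : Finset (Fin (n + 2))))]
  apply Finset.sum_congr rfl
  intro j _
  split_ifs with h
  · rw [← Finset.mul_sum, sum_el_cons, Finset.mul_sum]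
    apply Finset.sum_congr rfl
    intro p _
    ring
  · simp

theorem ch_swap {n : ℕ} (A : Finset ι) (j : Fin (n + 1) → ι) (q : Fin n) (i : Fin (n + 2))
    (hi : i ≠ q.castSucc.succ) :
    ch A (j ∘ Equiv.swap q.castSucc q.succ) i = ch A j i := by
  have hiv : (i : ℕ) ≠ (q : ℕ) + 1 := by
    intro h
    apply hi
    apply Fin.ext
    simp [h]
  have key : ∀ a : Fin (n + 1), a.castSucc < i → (Equiv.swap q.castSucc q.succ a).castSucc < i := by
    intro a ha
    by_cases h1 : a = q.castSucc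
    · rw [h1, Equiv.swap_apply_left]
      rw [h1] at ha
      rw [Fin.lt_def] at ha ⊢
      simp at ha ⊢
      omega
    by_cases h2 : a = q.succ
    · rw [h2, Equiv.swap_apply_right]
      rw [h2] at ha
      rw [Fin.lt_def] at ha ⊢
      simp at ha ⊢
      omega
    rw [Equiv.swap_apply_of_ne_of_ne h1 h2]
    exact ha
  ext v
  rw [mem_ch, mem_ch]
  constructor
  · rintro (h | ⟨a, ha, hav⟩)
    · exact Or.inl h
    · exact Or.inr ⟨_, key a ha, hav⟩
  · rintro (h | ⟨a, ha, hav⟩)
    · exact Or.inl h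
    · refine Or.inr ⟨_, key a ha, ?_⟩
      rw [Function.comp_apply, Equiv.swap_apply_self]
      exact hav

theorem TT_mid {n : ℕ} {c : (Fin (n + 1) → ι) → ℚ}
    (hc : ∀ (s : Equiv.Perm (Fin (n + 1))) (x : Fin (n + 1) → ι), c (x ∘ s) = ((Equiv.Perm.sign s : ℤ) : ℚ) * c x)
    (w : Fin (n + 1) → Finset ι) (q : Fin n) :
    TT c w q.castSucc.succ = 0 := by
  unfold TT
  apply Finset.sum_eq_zero
  intro A _
  set t : Equiv.Perm (Fin (n + 1)) := Equiv.swap q.castSucc q.succ with ht
  have hne : q.castSucc ≠ q.succ := by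
    intro h
    have := congrArg Fin.val h
    simp at this
  have hinv : ∀ x : Fin (n + 1) → ι, (x ∘ t) ∘ t = x := by
    intro x
    funext i
    rw [Function.comp_apply, Function.comp_apply, ht, Equiv.swap_apply_self]
  set e : (Fin (n + 1) → ι) ≃ (Fin (n + 1) → ι) :=
    ⟨fun x => x ∘ t, fun x => x ∘ t, hinv, hinv⟩ with he
  have h1 := Equiv.sum_comp e (fun j : Fin (n + 1) → ι =>
    if Dis A j then (-1) ^ A.card * c j * el (ch A j ∘ (q.castSucc.succ).succAbove) w else 0)
  have h2 : ∀ j : Fin (n + 1) → ι,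
      (if Dis A (e j) then (-1) ^ A.card * c (e j) * el (ch A (e j) ∘ (q.castSucc.succ).succAbove) w else 0)
      = - (if Dis A j then (-1) ^ A.card * c j * el (ch A j ∘ (q.castSucc.succ).succAbove) w else 0) := by
    intro j
    have e1 : Dis A (e j) ↔ Dis A j := by
      constructor
      · intro h a
        have := h (t a)
        simp only [he, Equiv.coe_fn_mk, Function.comp_apply] at this
        rw [ht, Equiv.swap_apply_self] at this
        exact this
      · intro h a
        exact h (t a)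
    have e2 : c (e j) = - c j := by
      show c (j ∘ t) = - c j
      rw [hc, ht, Equiv.Perm.sign_swap hne]
      push_cast
      ring
    have e3 : ch A (e j) ∘ (q.castSucc.succ).succAbove = ch A j ∘ (q.castSucc.succ).succAbove := by
      funext i
      rw [Function.comp_apply, Function.comp_apply]
      exact ch_swap A j q _ (Fin.succAbove_ne _ _)
    rw [e2, e3]
    by_cases h : Dis A j
    · rw [if_pos h, if_pos (e1.2 h)]
      ring
    · rw [if_neg h, if_neg (fun h' => h (e1.1 h'))]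
      ring
  rw [Finset.sum_congr rfl (fun j _ => h2 j), Finset.sum_neg_distrib] at h1
  linarith

theorem ch_cons {n : ℕ} (A : Finset ι) (a : ι) (l : Fin n → ι) :
    ch A (Fin.cons a l : Fin (n + 1) → ι) ∘ (0 : Fin (n + 2)).succAbove = ch (insert a A) l := by
  funext i
  rw [Function.comp_apply, Fin.succAbove_zero]
  ext v
  rw [mem_ch, mem_ch, Finset.mem_insert]
  constructor
  · rintro (h | ⟨b, hb, hbv⟩)
    · exact Or.inl (Or.inr h)
    · rcases Fin.eq_zero_or_eq_succ b with hb0 | ⟨b', hb'⟩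
      · rw [hb0, Fin.cons_zero] at hbv
        exact Or.inl (Or.inl hbv.symm)
      · rw [hb', Fin.cons_succ] at hbv
        refine Or.inr ⟨b', ?_, hbv⟩
        rw [hb', Fin.lt_def] at hb
        rw [Fin.lt_def]
        simp at hb ⊢
        omega
  · rintro ((h | h) | ⟨b, hb, hbv⟩)
    · refine Or.inr ⟨0, ?_, ?_⟩
      · rw [Fin.lt_def]
        simp
      · rw [Fin.cons_zero, h]
    · exact Or.inl h
    · refine Or.inr ⟨b.succ, ?_, ?_⟩
      · rw [Fin.lt_def] at hb ⊢
        simp at hb ⊢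
        omega
      · rw [Fin.cons_succ, hbv]

theorem ch_snoc {n : ℕ} (A : Finset ι) (a : ι) (l : Fin n → ι) :
    ch A (Fin.snoc l a : Fin (n + 1) → ι) ∘ (Fin.last (n + 1)).succAbove = ch A l := by
  funext i
  rw [Function.comp_apply, Fin.succAbove_last]
  ext v
  rw [mem_ch, mem_ch]
  constructor
  · rintro (h | ⟨b, hb, hbv⟩)
    · exact Or.inl h
    · have hbn : (b : ℕ) < n := by
        rw [Fin.lt_def] at hb
        simp at hb
        have := i.isLt
        omega
      have : b = (⟨b, hbn⟩ : Fin n).castSucc := by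
        apply Fin.ext
        simp
      rw [this, Fin.snoc_castSucc] at hbv
      refine Or.inr ⟨_, ?_, hbv⟩
      rw [Fin.lt_def] at hb ⊢
      simp at hb ⊢
      exact hb
  · rintro (h | ⟨b, hb, hbv⟩)
    · exact Or.inl h
    · refine Or.inr ⟨b.castSucc, ?_, ?_⟩
      · rw [Fin.lt_def] at hb ⊢
        simp at hb ⊢
        exact hb
      · rw [Fin.snoc_castSucc]
        exact hbv

theorem dis_cons {n : ℕ} (A : Finset ι) (a : ι) (l : Fin n → ι) :
    Dis A (Fin.cons a l : Fin (n + 1) → ι) ↔ a ∉ A ∧ Dis A l := by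
  unfold Dis
  rw [Fin.forall_fin_succ]
  simp

theorem dis_snoc {n : ℕ} (A : Finset ι) (a : ι) (l : Fin n → ι) :
    Dis A (Fin.snoc l a : Fin (n + 1) → ι) ↔ a ∉ A ∧ Dis A l := by
  unfold Dis
  rw [Fin.forall_fin_succ']
  simp [and_comm]

theorem c_snoc {n : ℕ} {c : (Fin (n + 1) → ι) → ℚ}
    (hc : ∀ (s : Equiv.Perm (Fin (n + 1))) (x : Fin (n + 1) → ι), c (x ∘ s) = ((Equiv.Perm.sign s : ℤ) : ℚ) * c x)
    (a : ι) (l : Fin n → ι) :
    c (Fin.snoc l a) = (-1) ^ n * c (Fin.cons a l) := by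
  have h : (Fin.snoc l a : Fin (n + 1) → ι) = (Fin.cons a l : Fin (n + 1) → ι) ∘ (finRotate (n + 1)) := by
    rw [Fin.snoc_eq_cons_rotate]
    rfl
  rw [h, hc, sign_finRotate]
  push_cast
  rfl

theorem TT_zero {n : ℕ} {c : (Fin (n + 1) → ι) → ℚ}
    (hc : ∀ (s : Equiv.Perm (Fin (n + 1))) (x : Fin (n + 1) → ι), c (x ∘ s) = ((Equiv.Perm.sign s : ℤ) : ℚ) * c x)
    (w : Fin (n + 1) → Finset ι) :
    TT c w 0 = - ∑ l : Fin n → ι, ∑ a : ι, ∑ B : Finset ι,
      if a ∈ B ∧ Dis B l then (-1) ^ B.card * c (Fin.cons a l) * el (ch B l) w else 0 := by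
  unfold TT
  rw [Finset.sum_comm, ← Equiv.sum_comp (Fin.consEquiv (fun _ : Fin (n + 1) => ι)), Fintype.sum_prod_type,
    Finset.sum_comm, ← Finset.sum_neg_distrib]
  apply Finset.sum_congr rfl
  intro l _
  rw [← Finset.sum_neg_distrib]
  apply Finset.sum_congr rfl
  intro a _
  rw [← Finset.sum_neg_distrib]
  have hce : (Fin.consEquiv (fun _ : Fin (n + 1) => ι)) (a, l) = (Fin.cons a l : Fin (n + 1) → ι) := rfl
  simp only [hce, ch_cons, dis_cons]
  by_cases hal : ∃ i, l i = a
  · have h0 : c (Fin.cons a l) = 0 := by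
      apply alt_not_inj hc
      intro hinj
      obtain ⟨i, hi⟩ := hal
      have := hinj (a₁ := (0 : Fin (n + 1))) (a₂ := i.succ) (by rw [Fin.cons_zero, Fin.cons_succ, hi])
      exact absurd this.symm (Fin.succ_ne_zero i)
    rw [h0]
    simp
  · push Not at hal
    rw [← Finset.sum_filter]
    have h2 : ∑ B : Finset ι, -(if a ∈ B ∧ Dis B l then (-1) ^ B.card * c (Fin.cons a l) * el (ch B l) w else 0)
      = ∑ B ∈ univ.filter (fun B : Finset ι => a ∈ B ∧ Dis B l), -((-1) ^ B.card * c (Fin.cons a l) * el (ch B l) w) := by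
      rw [Finset.sum_filter]
      apply Finset.sum_congr rfl
      intro B _
      split_ifs <;> simp
    rw [h2]
    apply Finset.sum_nbij' (fun A => insert a A) (fun B => B.erase a)
    · intro A hA
      rw [Finset.mem_filter] at hA ⊢
      refine ⟨Finset.mem_univ _, Finset.mem_insert_self _ _, ?_⟩
      intro i hi
      rw [Finset.mem_insert] at hi
      rcases hi with hi | hi
      · exact hal i hi
      · exact hA.2.2 i hi
    · intro B hB
      rw [Finset.mem_filter] at hB ⊢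
      refine ⟨Finset.mem_univ _, Finset.notMem_erase _ _, ?_⟩
      intro i hi
      exact hB.2.2 i (Finset.mem_of_mem_erase hi)
    · intro A hA
      rw [Finset.mem_filter] at hA
      exact Finset.erase_insert hA.2.1
    · intro B hB
      rw [Finset.mem_filter] at hB
      exact Finset.insert_erase hB.2.1
    · intro A hA
      rw [Finset.mem_filter] at hA
      rw [Finset.card_insert_of_notMem hA.2.1, pow_succ]
      ring

theorem TT_last {n : ℕ} {c : (Fin (n + 1) → ι) → ℚ}
    (hc : ∀ (s : Equiv.Perm (Fin (n + 1))) (x : Fin (n + 1) → ι), c (x ∘ s) = ((Equiv.Perm.sign s : ℤ) : ℚ) * c x)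
    (w : Fin (n + 1) → Finset ι) :
    TT c w (Fin.last (n + 1)) = (-1) ^ n * ∑ l : Fin n → ι, ∑ a : ι, ∑ B : Finset ι,
      if a ∉ B ∧ Dis B l then (-1) ^ B.card * c (Fin.cons a l) * el (ch B l) w else 0 := by
  unfold TT
  rw [Finset.sum_comm, ← Equiv.sum_comp (Fin.snocEquiv (fun _ : Fin (n + 1) => ι)), Fintype.sum_prod_type,
    Finset.sum_comm, Finset.mul_sum]
  apply Finset.sum_congr rfl
  intro l _
  rw [Finset.mul_sum]
  apply Finset.sum_congr rfl
  intro a _
  rw [Finset.mul_sum]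
  apply Finset.sum_congr rfl
  intro B _
  have h1 : (Fin.snocEquiv (fun _ : Fin (n + 1) => ι)) (a, l) = (Fin.snoc l a : Fin (n + 1) → ι) := rfl
  rw [h1, ch_snoc, c_snoc hc]
  simp only [dis_snoc]
  split_ifs
  · ring
  · ring

theorem zz_cycle {n : ℕ} {c : (Fin (n + 1) → ι) → ℚ}
    (hc : ∀ (s : Equiv.Perm (Fin (n + 1))) (x : Fin (n + 1) → ι), c (x ∘ s) = ((Equiv.Perm.sign s : ℤ) : ℚ) * c x)
    (hbd : bd c = 0) : bd (zz c) = 0 := by
  funext w
  rw [bd_zz, Fin.sum_univ_succ, Fin.sum_univ_castSucc]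
  have hmid : ∑ i : Fin n, (-1 : ℚ) ^ ((i.castSucc.succ : Fin (n + 2)) : ℕ) * TT c w i.castSucc.succ = 0 := by
    apply Finset.sum_eq_zero
    intro i _
    rw [TT_mid hc, mul_zero]
  rw [hmid, Fin.succ_last, TT_zero hc, TT_last hc]
  have hsum : ∀ l : Fin n → ι, ∑ a : ι, c (Fin.cons a l) = 0 := by
    intro l
    rw [← bd_eq, hbd]
    rfl
  have key : ∑ l : Fin n → ι, ∑ a : ι, ∑ B : Finset ι,
      (if a ∈ B ∧ Dis B l then (-1) ^ B.card * c (Fin.cons a l) * el (ch B l) w else 0)
      + ∑ l : Fin n → ι, ∑ a : ι, ∑ B : Finset ι,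
      (if a ∉ B ∧ Dis B l then (-1) ^ B.card * c (Fin.cons a l) * el (ch B l) w else 0) = 0 := by
    rw [← Finset.sum_add_distrib]
    apply Finset.sum_eq_zero
    intro l _
    rw [← Finset.sum_add_distrib]
    have : ∀ a : ι, (∑ B : Finset ι,
      (if a ∈ B ∧ Dis B l then (-1) ^ B.card * c (Fin.cons a l) * el (ch B l) w else 0)
      + ∑ B : Finset ι,
      (if a ∉ B ∧ Dis B l then (-1) ^ B.card * c (Fin.cons a l) * el (ch B l) w else 0))
      = ∑ B : Finset ι, if Dis B l then (-1) ^ B.card * el (ch B l) w * c (Fin.cons a l) else 0 := by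
      intro a
      rw [← Finset.sum_add_distrib]
      apply Finset.sum_congr rfl
      intro B _
      by_cases h1 : Dis B l <;> by_cases h2 : a ∈ B <;> simp [h1, h2] <;> ring
    rw [Finset.sum_congr rfl (fun a _ => this a), Finset.sum_comm]
    apply Finset.sum_eq_zero
    intro B _
    split_ifs
    · rw [← Finset.mul_sum, hsum, mul_zero]
    · simp
  have hval : (((Fin.last (n + 1) : Fin (n + 2)) : ℕ)) = n + 1 := rfl
  have h0 : (((0 : Fin (n + 2)) : ℕ)) = 0 := rfl
  rw [hval, h0]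
  have hpow : (-1 : ℚ) ^ (n + 1) * (-1) ^ n = -1 := by
    rw [← pow_add]
    have : n + 1 + n = 2 * n + 1 := by ring
    rw [this, pow_succ, pow_mul]
    norm_num
  rw [zero_add, ← mul_assoc, hpow, pow_zero, one_mul, neg_one_mul, Pi.zero_apply]
  linarith

theorem zz_alt {k : ℕ} (c : (Fin k → ι) → ℚ) (s : Equiv.Perm (Fin (k + 1))) (x : Fin (k + 1) → Finset ι) :
    zz c (x ∘ s) = ((Equiv.Perm.sign s : ℤ) : ℚ) * zz c x := by
  unfold zz
  rw [Finset.mul_sum]
  apply Finset.sum_congr rfl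
  intro A _
  rw [Finset.mul_sum]
  apply Finset.sum_congr rfl
  intro j _
  rw [el_alt]
  split_ifs
  · ring
  · ring

end Pool.Agent.R141.CM
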