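import Mathlib

/-!
Comatching number, nerves and rational homology of nerves of set families.
-/

namespace Pool.Agent.R141.CM

/-- `M` is a comatching of the family `F` (an induced matching in the bipartite complement of the
incidence graph): every `f ∈ M` has a point `a ∉ F f` lying in all other members of `M`. -/
def Comatching {ι X : Type} (F : ι → Set X) (M : Finset ι) : Prop :=
  ∀ f ∈ M, ∃ a : X, a ∉ F f ∧ ∀ g ∈ M, g ≠ f → a ∈ F g

/-- The comatching number of the family is at most `t`. -/
def ComatchingLE {ι X : Type} (F : ι → Set X) (t : ℕ) : Prop :=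
  ∀ M : Finset ι, Comatching F M → M.card ≤ t

/-- Oriented simplicial `(n-1)`-chains with rational coefficients of the subcomplex of the nerve of
`F` induced on the vertex set `W`: `c x` is the coefficient of the oriented simplex
`[x 0, …, x (n-1)]`. They are finitely supported, alternating, and supported on tuples of members
which lie in `W` and have a common point. -/
structure IsChain {ι X : Type} (F : ι → Set X) (W : Set ι) (n : ℕ) (c : (Fin n → ι) → ℚ) : Prop where
  fin : (Function.support c).Finite
  alt : ∀ (s : Equiv.Perm (Fin n)) (x : Fin n → ι), c (x ∘ s) = ((Equiv.Perm.sign s : ℤ) : ℚ) * c x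
  mem : ∀ x, c x ≠ 0 → (∀ i, x i ∈ W) ∧ ∃ a : X, ∀ i, a ∈ F (x i)

/-- The boundary: the coefficient of `[w 0, …, w (n-1)]` in `∂c` is the sum over all `v` of the
coefficient of `[v, w 0, …, w (n-1)]` in `c`. -/
noncomputable def bd {ι : Type} {n : ℕ} (c : (Fin (n + 1) → ι) → ℚ) : (Fin n → ι) → ℚ :=
  fun w => ∑ᶠ v, c (Fin.cons v w)

/-- The `i`-th reduced rational homology of the subcomplex of the nerve induced on `W` vanishes. -/
def HomZero {ι X : Type} (F : ι → Set X) (W : Set ι) (i : ℕ) : Prop :=
  ∀ c : (Fin (i + 1) → ι) → ℚ, IsChain F W (i + 1) c → bd c = 0 →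
    ∃ b : (Fin (i + 2) → ι) → ℚ, IsChain F W (i + 2) b ∧ bd b = c

/-- The nerve of the family is `d`-Leray. -/
def Leray {ι X : Type} (F : ι → Set X) (d : ℕ) : Prop :=
  ∀ (W : Set ι) (i : ℕ), d ≤ i → HomZero F W i

end Pool.Agent.R141.CM
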