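import Pool.Agent.R141.CM.Defs

namespace Pool.Agent.R141.CM

open Finset

variable {V : Type} [DecidableEq V]

/-- the elementary alternating chain of an ordered simplex -/
noncomputable def el {n : ℕ} (y : Fin n → V) : (Fin n → V) → ℚ :=
  fun x => ∑ s : Equiv.Perm (Fin n), if x ∘ s = y then ((Equiv.Perm.sign s : ℤ) : ℚ) else 0

theorem sgn_mul {n : ℕ} (s t : Equiv.Perm (Fin n)) :
    ((Equiv.Perm.sign (s * t) : ℤ) : ℚ) = ((Equiv.Perm.sign s : ℤ) : ℚ) * ((Equiv.Perm.sign t : ℤ) : ℚ) := by
  rw [Equiv.Perm.sign_mul]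
  push_cast
  rfl

theorem sgn_sq {n : ℕ} (s : Equiv.Perm (Fin n)) :
    ((Equiv.Perm.sign s : ℤ) : ℚ) * ((Equiv.Perm.sign s : ℤ) : ℚ) = 1 := by
  rcases Int.units_eq_one_or (Equiv.Perm.sign s) with h | h <;> rw [h] <;> norm_num

theorem sgn_inv {n : ℕ} (s : Equiv.Perm (Fin n)) :
    ((Equiv.Perm.sign s⁻¹ : ℤ) : ℚ) = ((Equiv.Perm.sign s : ℤ) : ℚ) := by
  rw [Equiv.Perm.sign_inv]

theorem el_alt {n : ℕ} (y : Fin n → V) (t : Equiv.Perm (Fin n)) (x : Fin n → V) :
    el y (x ∘ t) = ((Equiv.Perm.sign t : ℤ) : ℚ) * el y x := by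
  unfold el
  rw [Finset.mul_sum]
  rw [← Equiv.sum_comp (Equiv.mulLeft t⁻¹)]
  apply Finset.sum_congr rfl
  intro s _
  have h : (x ∘ t) ∘ ((Equiv.mulLeft t⁻¹) s) = x ∘ s := by
    funext i
    simp
  rw [h]
  split_ifs
  · rw [Equiv.coe_mulLeft, sgn_mul, sgn_inv]
  · rw [mul_zero]

theorem el_ne {n : ℕ} {y x : Fin n → V} (h : el y x ≠ 0) : ∃ s : Equiv.Perm (Fin n), x ∘ s = y := by
  unfold el at h
  obtain ⟨s, _, hs⟩ := Finset.exists_ne_zero_of_sum_ne_zero h
  by_contra hcon
  push Not at hcon
  rw [if_neg (hcon s)] at hs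
  exact hs rfl

theorem el_perm {n : ℕ} (y : Fin n → V) (t : Equiv.Perm (Fin n)) (x : Fin n → V) :
    el (y ∘ t) x = ((Equiv.Perm.sign t : ℤ) : ℚ) * el y x := by
  unfold el
  rw [Finset.mul_sum]
  rw [← Equiv.sum_comp (Equiv.mulRight t)]
  apply Finset.sum_congr rfl
  intro s _
  have h : (x ∘ ((Equiv.mulRight t) s) = y ∘ t) ↔ x ∘ s = y := by
    constructor
    · intro h
      funext i
      have := congrFun h (t⁻¹ i)
      simpa using this
    · intro h
      rw [← h]
      funext i
      simp
  by_cases h2 : x ∘ s = y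
  · rw [if_pos (h.2 h2), if_pos h2, Equiv.coe_mulRight, sgn_mul, mul_comm]
  · rw [if_neg (fun h3 => h2 (h.1 h3)), if_neg h2, mul_zero]

theorem el_not_inj {n : ℕ} (y : Fin n → V) (hy : ¬ Function.Injective y) (x : Fin n → V) : el y x = 0 := by
  unfold Function.Injective at hy
  push Not at hy
  obtain ⟨a, b, hab, hne⟩ := hy
  have h1 := el_perm y (Equiv.swap a b) x
  have h2 : y ∘ (Equiv.swap a b) = y := by
    funext i
    rw [Function.comp_apply]
    by_cases hi : i = a
    · rw [hi, Equiv.swap_apply_left, hab]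
    by_cases hi2 : i = b
    · rw [hi2, Equiv.swap_apply_right, hab]
    rw [Equiv.swap_apply_of_ne_of_ne hi hi2]
  rw [h2, Equiv.Perm.sign_swap hne] at h1
  push_cast at h1
  linarith

theorem alt_not_inj {n : ℕ} {c : (Fin n → V) → ℚ}
    (hc : ∀ (s : Equiv.Perm (Fin n)) (x : Fin n → V), c (x ∘ s) = ((Equiv.Perm.sign s : ℤ) : ℚ) * c x)
    (y : Fin n → V) (hy : ¬ Function.Injective y) : c y = 0 := by
  unfold Function.Injective at hy
  push Not at hy
  obtain ⟨a, b, hab, hne⟩ := hy
  have h1 := hc (Equiv.swap a b) y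
  have h2 : y ∘ (Equiv.swap a b) = y := by
    funext i
    rw [Function.comp_apply]
    by_cases hi : i = a
    · rw [hi, Equiv.swap_apply_left, hab]
    by_cases hi2 : i = b
    · rw [hi2, Equiv.swap_apply_right, hab]
    rw [Equiv.swap_apply_of_ne_of_ne hi hi2]
  rw [h2, Equiv.Perm.sign_swap hne] at h1
  push_cast at h1
  linarith

/-- permutations of `Fin (n+1)` in terms of the preimage of `0` and a permutation of `Fin n` -/
noncomputable def glue {n : ℕ} (q : Fin (n + 1) × Equiv.Perm (Fin n)) : Equiv.Perm (Fin (n + 1)) :=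
  Equiv.Perm.decomposeFin.symm (0, q.2) * Fin.cycleRange q.1

theorem glue_zero {n : ℕ} (q : Fin (n + 1) × Equiv.Perm (Fin n)) : glue q q.1 = 0 := by
  unfold glue
  rw [Equiv.Perm.mul_apply, Fin.cycleRange_self, Equiv.Perm.decomposeFin_symm_apply_zero]

theorem glue_succAbove {n : ℕ} (q : Fin (n + 1) × Equiv.Perm (Fin n)) (i : Fin n) :
    glue q (q.1.succAbove i) = (q.2 i).succ := by
  unfold glue
  rw [Equiv.Perm.mul_apply]
  have h : Fin.cycleRange q.1 (q.1.succAbove i) = i.succ := by
    rw [← Fin.cycleRange_symm_succ, Equiv.apply_symm_apply]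
  rw [h, Equiv.Perm.decomposeFin_symm_apply_succ]
  simp

theorem glue_inj {n : ℕ} : Function.Injective (glue (n := n)) := by
  intro q r h
  have h1 : q.1 = r.1 := by
    have e1 := glue_zero q
    have e2 := glue_zero r
    rw [h] at e1
    exact (glue r).injective (e1.trans e2.symm)
  have h2 : q.2 = r.2 := by
    apply Equiv.ext
    intro i
    have e1 := glue_succAbove q i
    have e2 := glue_succAbove r i
    rw [h, h1] at e1
    exact Fin.succ_injective _ (e1.symm.trans e2)
  exact Prod.ext h1 h2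

theorem glue_bij {n : ℕ} : Function.Bijective (glue (n := n)) := by
  rw [Fintype.bijective_iff_injective_and_card]
  refine ⟨glue_inj, ?_⟩
  rw [Fintype.card_prod, Fintype.card_fin, Fintype.card_perm, Fintype.card_perm, Fintype.card_fin,
    Fintype.card_fin, Nat.factorial_succ]

theorem glue_sign {n : ℕ} (q : Fin (n + 1) × Equiv.Perm (Fin n)) :
    ((Equiv.Perm.sign (glue q) : ℤ) : ℚ) = (-1) ^ (q.1 : ℕ) * ((Equiv.Perm.sign q.2 : ℤ) : ℚ) := by
  unfold glue
  rw [sgn_mul, Fin.sign_cycleRange, Equiv.Perm.decomposeFin.symm_sign]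
  simp [mul_comm]

/-- the coefficient of `[v, x]` in an elementary chain -/
theorem el_cons {n : ℕ} (y : Fin (n + 1) → V) (v : V) (x : Fin n → V) :
    el y (Fin.cons v x) = ∑ p : Fin (n + 1), (-1) ^ (p : ℕ) * if v = y p then el (y ∘ p.succAbove) x else 0 := by
  have h1 : el y (Fin.cons v x) = ∑ q : Fin (n + 1) × Equiv.Perm (Fin n),
      if (Fin.cons v x : Fin (n + 1) → V) ∘ (glue q) = y then ((Equiv.Perm.sign (glue q) : ℤ) : ℚ) else 0 := by
    unfold el
    exact (Function.Bijective.sum_comp glue_bij (fun s : Equiv.Perm (Fin (n + 1)) =>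
      if (Fin.cons v x : Fin (n + 1) → V) ∘ s = y then ((Equiv.Perm.sign s : ℤ) : ℚ) else 0)).symm
  rw [h1, Fintype.sum_prod_type]
  apply Finset.sum_congr rfl
  intro p _
  have h2 : ∀ s : Equiv.Perm (Fin n), ((Fin.cons v x : Fin (n + 1) → V) ∘ (glue (p, s)) = y) ↔
      (v = y p ∧ x ∘ s = y ∘ p.succAbove) := by
    intro s
    constructor
    · intro h
      constructor
      · have := congrFun h p
        rw [Function.comp_apply, glue_zero (p, s)] at this
        exact this
      · funext i
        have := congrFun h (p.succAbove i)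
        rw [Function.comp_apply, glue_succAbove (p, s)] at this
        exact this
    · rintro ⟨h3, h4⟩
      funext i
      rw [Function.comp_apply]
      by_cases hi : i = p
      · rw [hi, glue_zero (p, s)]
        exact h3
      · obtain ⟨k, rfl⟩ := Fin.exists_succAbove_eq hi
        rw [glue_succAbove (p, s)]
        exact congrFun h4 k
  by_cases hv : v = y p
  · rw [if_pos hv]
    unfold el
    rw [Finset.mul_sum]
    apply Finset.sum_congr rfl
    intro s _
    by_cases h3 : x ∘ s = y ∘ p.succAbove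
    · rw [if_pos ((h2 s).2 ⟨hv, h3⟩), if_pos h3, glue_sign]
    · rw [if_neg (fun h => h3 ((h2 s).1 h).2), if_neg h3, mul_zero]
  · rw [if_neg hv, mul_zero]
    apply Finset.sum_eq_zero
    intro s _
    rw [if_neg (fun h => hv ((h2 s).1 h).1)]

theorem sum_el_cons [Fintype V] {n : ℕ} (y : Fin (n + 1) → V) (x : Fin n → V) :
    ∑ v, el y (Fin.cons v x) = ∑ p : Fin (n + 1), (-1) ^ (p : ℕ) * el (y ∘ p.succAbove) x := by
  simp only [el_cons]
  rw [Finset.sum_comm]
  apply Finset.sum_congr rfl
  intro p _
  rw [← Finset.mul_sum, Finset.sum_ite_eq' Finset.univ (y p)]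
  simp

/-- an alternating function is the sum of its elementary parts -/
theorem alt_eq_sum [Fintype V] [LinearOrder V] {n : ℕ} {c : (Fin n → V) → ℚ}
    (hc : ∀ (s : Equiv.Perm (Fin n)) (x : Fin n → V), c (x ∘ s) = ((Equiv.Perm.sign s : ℤ) : ℚ) * c x)
    (x : Fin n → V) :
    ∑ j : Fin n → V, (if StrictMono j then c j * el j x else 0) = c x := by
  classical
  by_cases hx : Function.Injective x
  · -- the sorting permutation
    set s0 := Tuple.sort x with hs0
    have hmono : StrictMono (x ∘ s0) :=
      (Tuple.monotone_sort x).strictMono_of_injective (hx.comp s0.injective)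
    rw [Finset.sum_eq_single (x ∘ s0)]
    · rw [if_pos hmono, hc]
      have h1 : el (x ∘ s0) x = ((Equiv.Perm.sign s0 : ℤ) : ℚ) := by
        unfold el
        rw [Finset.sum_eq_single s0]
        · rw [if_pos rfl]
        · intro s _ hs
          rw [if_neg]
          intro h
          apply hs
          apply Equiv.ext
          intro i
          exact hx (congrFun h i)
        · intro h
          exact absurd (Finset.mem_univ _) h
      rw [h1, mul_right_comm, sgn_sq, one_mul]
    · intro j _ hj
      split_ifs with hjm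
      · have : el j x = 0 := by
          by_contra hcon
          obtain ⟨s, hs⟩ := el_ne hcon
          apply hj
          rw [← hs]
          apply Tuple.unique_monotone
          · rw [hs]; exact hjm.monotone
          · exact hmono.monotone
        rw [this, mul_zero]
      · rfl
    · intro h
      exact absurd (Finset.mem_univ _) h
  · rw [alt_not_inj hc x hx]
    apply Finset.sum_eq_zero
    intro j _
    split_ifs with hjm
    · have : el j x = 0 := by
        by_contra hcon
        obtain ⟨s, hs⟩ := el_ne hcon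
        apply hx
        have : Function.Injective (x ∘ s) := by rw [hs]; exact hjm.injective
        have h2 : x = (x ∘ s) ∘ s.symm := by
          funext i
          simp
        rw [h2]
        exact this.comp s.symm.injective
      rw [this, mul_zero]
    · rfl

end Pool.Agent.R141.CM
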