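import Pool.Agent.R141.CM.Push

namespace Pool.Agent.R141.CM

open Finset

theorem aux {P1 P2 Y1 Y2 A1 A2 : Prop} (n : ¬((P2 ↔ Y2) ∨ A2)) (f : (P1 ↔ Y2) ∨ A2)
    (g : (P2 ↔ Y1) ∨ A1) (g' : (P1 ↔ Y1) ∨ A1) : A1 := by
  rcases g with g | g
  · rcases g' with g' | g'
    · rcases f with f | f
      · exact absurd (Or.inl (g.trans (g'.symm.trans f))) n
      · exact absurd (Or.inr f) n
    · exact g'
  · exact g

/-- Comatchings of size at least three of the power come from comatchings of size three. -/
theorem pw_comatching {ι X : Type} [Fintype ι] [LinearOrder ι] [Nonempty ι] (F : ι → Set X)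
    (h2 : ComatchingLE F 2) : ComatchingLE (pw F) 2 := by
  intro M hM
  by_contra hcon
  push Not at hcon
  obtain ⟨x1, x2, x3, h1M, h2M, h3M, h12, h13, h23⟩ := Finset.two_lt_card_iff.1 hcon
  obtain ⟨⟨a1, y1⟩, n1, m1⟩ := hM x1 h1M
  obtain ⟨⟨a2, y2⟩, n2, m2⟩ := hM x2 h2M
  obtain ⟨⟨a3, y3⟩, n3, m3⟩ := hM x3 h3M
  have e12 := m1 x2 h2M (Ne.symm h12)
  have e13 := m1 x3 h3M (Ne.symm h13)
  have e21 := m2 x1 h1M h12
  have e23 := m2 x3 h3M (Ne.symm h23)
  have e31 := m3 x1 h1M h13
  have e32 := m3 x2 h2M h23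
  obtain ⟨p, k1⟩ := not_forall.1 n1
  obtain ⟨q, k2⟩ := not_forall.1 n2
  obtain ⟨r, k3⟩ := not_forall.1 n3
  have g12 : a1 ∈ F q := aux k2 (e23 q) (e12 q) (e13 q)
  have g13 : a1 ∈ F r := aux k3 (e32 r) (e13 r) (e12 r)
  have g21 : a2 ∈ F p := aux k1 (e13 p) (e21 p) (e23 p)
  have g23 : a2 ∈ F r := aux k3 (e31 r) (e23 r) (e21 r)
  have g31 : a3 ∈ F p := aux k1 (e12 p) (e31 p) (e32 p)
  have g32 : a3 ∈ F q := aux k2 (e21 q) (e32 q) (e31 q)
  have n1' : a1 ∉ F p := fun h => k1 (Or.inr h)
  have n2' : a2 ∉ F q := fun h => k2 (Or.inr h)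
  have n3' : a3 ∉ F r := fun h => k3 (Or.inr h)
  have hpq : p ≠ q := fun h => n1' (h ▸ g12)
  have hpr : p ≠ r := fun h => n1' (h ▸ g13)
  have hqr : q ≠ r := fun h => n2' (h ▸ g23)
  have hc : Comatching F {p, q, r} := by
    intro f hf
    rw [Finset.mem_insert, Finset.mem_insert, Finset.mem_singleton] at hf
    rcases hf with rfl | rfl | rfl
    · refine ⟨a1, n1', ?_⟩
      intro g hg hne
      rw [Finset.mem_insert, Finset.mem_insert, Finset.mem_singleton] at hg
      rcases hg with rfl | rfl | rfl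
      · exact absurd rfl hne
      · exact g12
      · exact g13
    · refine ⟨a2, n2', ?_⟩
      intro g hg hne
      rw [Finset.mem_insert, Finset.mem_insert, Finset.mem_singleton] at hg
      rcases hg with rfl | rfl | rfl
      · exact g21
      · exact absurd rfl hne
      · exact g23
    · refine ⟨a3, n3', ?_⟩
      intro g hg hne
      rw [Finset.mem_insert, Finset.mem_insert, Finset.mem_singleton] at hg
      rcases hg with rfl | rfl | rfl
      · exact g31
      · exact g32
      · exact absurd rfl hne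
  have hcard := h2 _ hc
  rw [Finset.card_eq_three.2 ⟨p, q, r, hpq, hpr, hqr, rfl⟩] at hcard
  omega

/-- Existence of finite families with comatching number at most two and nonzero `n`-th homology. -/
def Good (n : ℕ) : Prop :=
  ∃ (ι X : Type) (F : ι → Set X), Finite ι ∧ Finite X ∧ Nonempty ι ∧ Function.Injective F ∧ (∀ v, ∃ a, a ∉ F v) ∧
    ComatchingLE F 2 ∧ ¬ HomZero F Set.univ n

theorem good_zero : Good 0 := by
  refine ⟨Fin 2, Fin 2, fun v => {v}, inferInstance, inferInstance, inferInstance, ?_, ?_, ?_, ?_⟩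
  · intro u v h
    exact Set.singleton_injective h
  · intro v
    exact ⟨v + 1, by simp⟩
  · intro M _
    exact le_trans (Finset.card_le_univ M) (by simp)
  · intro h
    obtain ⟨b, hb, hbc⟩ := h (fun x => if x 0 = 0 then 1 else -1) (by
      refine ⟨Set.toFinite _, ?_, ?_⟩
      · intro s x
        have hs : s = 1 := by
          apply Equiv.ext
          intro i
          exact Fin.ext (by omega)
        rw [hs]
        simp
      · intro x _
        refine ⟨fun i => Set.mem_univ _, x 0, ?_⟩
        intro i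
        have : i = 0 := Fin.ext (by omega)
        rw [this]
        exact Set.mem_singleton _) (by
      funext w
      rw [bd_eq]
      simp)
    have hb0 : ∀ x, b x = 0 := by
      intro x
      by_contra hx
      obtain ⟨_, a, ha⟩ := hb.mem x hx
      apply hx
      apply alt_not_inj hb.alt
      intro hinj
      have e0 : a = x 0 := ha 0
      have e1 : a = x 1 := ha 1
      have := hinj (e0.symm.trans e1)
      exact absurd this (by simp)
    have h3 := congrFun hbc (fun _ => 0)
    rw [bd_eq] at h3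
    simp [hb0] at h3

theorem good_succ {n : ℕ} (h : Good n) : Good (n + 1) := by
  obtain ⟨ι, X, F, hfin, hfinX, hne, hinj, hmiss, hco, hhom⟩ := h
  have := Fintype.ofFinite ι
  let _ : LinearOrder ι := LinearOrder.lift' (Fintype.equivFin ι) (Fintype.equivFin ι).injective
  refine ⟨Finset ι, X × Finset ι, pw F, inferInstance, inferInstance, inferInstance, ?_, ?_, pw_comatching F hco, ?_⟩
  · intro x y hxy
    by_contra hne
    have : ∃ v, ¬ (v ∈ y ↔ v ∈ x) := by
      by_contra hcon
      push Not at hcon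
      exact hne (Finset.ext fun v => (hcon v).symm)
    obtain ⟨v, hv⟩ := this
    obtain ⟨a, ha⟩ := hmiss v
    have h1 : ((a, x) : X × Finset ι) ∈ pw F x := fun v => Or.inl Iff.rfl
    rw [hxy] at h1
    rcases h1 v with h2 | h2
    · exact hv h2
    · exact ha h2
  · intro x
    obtain ⟨v⟩ := hne
    obtain ⟨a, ha⟩ := hmiss v
    by_cases hv : v ∈ x
    · refine ⟨(a, ∅), ?_⟩
      intro h
      rcases h v with h2 | h2
      · exact absurd (h2.1 hv) (Finset.notMem_empty _)
      · exact ha h2
    · refine ⟨(a, univ), ?_⟩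
      intro h
      rcases h v with h2 | h2
      · exact hv (h2.2 (Finset.mem_univ _))
      · exact ha h2
  · unfold HomZero at hhom
    push Not at hhom
    obtain ⟨c, hc, hbd, hnb⟩ := hhom
    intro h
    have h1 := h (zz c) (zz_chain F hc) (zz_cycle hc.alt hbd)
    refine zz_not_bd F hc ?_ h1
    rintro ⟨b, hb, hbc⟩
    exact hnb b hb hbc

theorem good_all (n : ℕ) : Good n := by
  induction n with
  | zero => exact good_zero
  | succ n ih => exact good_succ ih

end Pool.Agent.R141.CM
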