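import Pool.Agent.R141.CM.Cycle

namespace Pool.Agent.R141.CM

open Finset

variable {ι X : Type} [Fintype ι] [LinearOrder ι] [Nonempty ι]

set_option linter.unusedSectionVars false

/-- smallest element not in the set -/
noncomputable def mm (x : Finset ι) : ι :=
  if h : xᶜ.Nonempty then xᶜ.min' h else Classical.arbitrary ι

theorem mm_notMem {x : Finset ι} (hx : x ≠ univ) : mm x ∉ x := by
  have h : xᶜ.Nonempty := by
    rw [Finset.nonempty_iff_ne_empty]
    intro h
    exact hx ((Finset.compl_eq_empty_iff x).1 h)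
  unfold mm
  rw [dif_pos h, ← Finset.mem_compl]
  exact Finset.min'_mem _ _

theorem mm_eq {x : Finset ι} {v : ι} (hv : v ∉ x) (hmin : ∀ u, u ∉ x → v ≤ u) : mm x = v := by
  have hx : x ≠ univ := by
    intro h
    exact hv (h ▸ Finset.mem_univ v)
  have h : xᶜ.Nonempty := ⟨v, Finset.mem_compl.2 hv⟩
  apply le_antisymm
  · unfold mm
    rw [dif_pos h]
    exact Finset.min'_le _ _ (Finset.mem_compl.2 hv)
  · exact hmin _ (mm_notMem hx)

theorem mm_le {x : Finset ι} {v : ι} (hv : v ∉ x) : mm x ≤ v := by
  have h : xᶜ.Nonempty := ⟨v, Finset.mem_compl.2 hv⟩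
  unfold mm
  rw [dif_pos h]
  exact Finset.min'_le _ _ (Finset.mem_compl.2 hv)

/-- pushforward of tuples along `mm` -/
noncomputable def push {k : ℕ} (f : (Fin k → Finset ι) → ℚ) : (Fin k → ι) → ℚ :=
  fun v => ∑ x : Fin k → Finset ι, if mm ∘ x = v then f x else 0

theorem push_el {k : ℕ} (y : Fin k → Finset ι) (w : Fin k → ι) : push (el y) w = el (mm ∘ y) w := by
  unfold push el
  have h1 : ∀ x : Fin k → Finset ι,
      (if mm ∘ x = w then ∑ s : Equiv.Perm (Fin k), (if x ∘ s = y then ((Equiv.Perm.sign s : ℤ) : ℚ) else 0) else 0)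
      = ∑ s : Equiv.Perm (Fin k), if mm ∘ x = w ∧ x ∘ s = y then ((Equiv.Perm.sign s : ℤ) : ℚ) else 0 := by
    intro x
    by_cases h : mm ∘ x = w
    · rw [if_pos h]
      apply Finset.sum_congr rfl
      intro s _
      simp [h]
    · rw [if_neg h]
      symm
      apply Finset.sum_eq_zero
      intro s _
      simp [h]
  rw [Finset.sum_congr rfl (fun x _ => h1 x), Finset.sum_comm]
  apply Finset.sum_congr rfl
  intro s _
  rw [Finset.sum_eq_single (y ∘ s.symm)]
  · have e1 : (y ∘ s.symm) ∘ s = y := by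
      funext i
      simp
    have e2 : (mm ∘ (y ∘ s.symm) = w) ↔ (w ∘ s = mm ∘ y) := by
      constructor
      · intro h
        rw [← h]
        funext i
        simp
      · intro h
        funext i
        have := congrFun h (s.symm i)
        simp at this
        simp [this]
    by_cases h : w ∘ s = mm ∘ y
    · rw [if_pos h, if_pos ⟨e2.2 h, e1⟩]
    · rw [if_neg h, if_neg (fun h' => h (e2.1 h'.1))]
  · intro x _ hx
    rw [if_neg]
    rintro ⟨_, h⟩
    apply hx
    rw [← h]
    funext i
    simp
  · intro h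
    exact absurd (Finset.mem_univ _) h

theorem zz_top {k : ℕ} {c : (Fin k → ι) → ℚ}
    (hc : ∀ (s : Equiv.Perm (Fin k)) (x : Fin k → ι), c (x ∘ s) = ((Equiv.Perm.sign s : ℤ) : ℚ) * c x)
    (x : Fin k → Finset ι) :
    zz c (Fin.cons univ x) = (-1) ^ (Fintype.card ι) * ∑ j : Fin k → ι,
      c j * el (ch (univ.image j)ᶜ j ∘ (Fin.last k).succAbove) x := by
  unfold zz
  rw [Finset.sum_comm, Finset.mul_sum]
  apply Finset.sum_congr rfl
  intro j _
  by_cases hj : Function.Injective j
  · have hne : ∀ (A : Finset ι) (p : Fin (k + 1)), Dis A j → ch A j p = univ →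
        p = Fin.last k ∧ A = (univ.image j)ᶜ := by
      intro A p hA hp
      have hpl : p = Fin.last k := by
        by_contra hcon
        have hlt : (p : ℕ) < k := by
          have := p.isLt
          have h2 : (p : ℕ) ≠ k := fun h => hcon (Fin.ext h)
          omega
        have hmem : j ⟨p, hlt⟩ ∈ ch A j p := by
          rw [hp]
          exact Finset.mem_univ _
        rw [mem_ch] at hmem
        rcases hmem with h | ⟨a, ha, hav⟩
        · exact hA _ h
        · have := hj hav
          rw [this, Fin.lt_def] at ha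
          simp at ha
      refine ⟨hpl, ?_⟩
      ext v
      rw [Finset.mem_compl, Finset.mem_image]
      constructor
      · rintro h ⟨a, _, ha⟩
        exact hA a (ha ▸ h)
      · intro h
        have hmem : v ∈ ch A j p := by
          rw [hp]
          exact Finset.mem_univ _
        rw [mem_ch] at hmem
        rcases hmem with h' | ⟨a, ha, hav⟩
        · exact h'
        · exact absurd ⟨a, Finset.mem_univ _, hav⟩ h
    rw [Finset.sum_eq_single (univ.image j)ᶜ]
    · have hdis : Dis (univ.image j)ᶜ j := by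
        intro a ha
        rw [Finset.mem_compl] at ha
        exact ha (Finset.mem_image_of_mem _ (Finset.mem_univ _))
      rw [if_pos hdis, el_cons, Finset.sum_eq_single (Fin.last k)]
      · have htop : univ = ch (univ.image j)ᶜ j (Fin.last k) := by
          symm
          rw [Finset.eq_univ_iff_forall]
          intro v
          rw [mem_ch, Finset.mem_compl, Finset.mem_image]
          by_cases h : ∃ a ∈ (univ : Finset (Fin k)), j a = v
          · obtain ⟨a, _, ha⟩ := h
            exact Or.inr ⟨a, Fin.castSucc_lt_last a, ha⟩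
          · exact Or.inl h
        rw [if_pos htop]
        have hcard : Fintype.card ι = (univ.image j)ᶜ.card + k := by
          have h1 := Finset.card_compl_add_card (univ.image j)
          rw [Finset.card_image_of_injective _ hj, Finset.card_univ, Fintype.card_fin] at h1
          exact h1.symm
        rw [hcard, pow_add]
        rw [Fin.val_last]
        ring
      · intro p _ hp
        rw [if_neg, mul_zero]
        intro h
        exact hp (hne _ p hdis h.symm).1
      · intro h
        exact absurd (Finset.mem_univ _) h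
    · intro A _ hA
      split_ifs with hd
      · rw [el_cons, Finset.sum_eq_zero, mul_zero]
        intro p _
        rw [if_neg, mul_zero]
        intro h
        exact hA (hne A p hd h.symm).2
      · rfl
    · intro h
      exact absurd (Finset.mem_univ _) h
  · rw [alt_not_inj hc j hj]
    simp

theorem notMem_ch {k : ℕ} {j : Fin k → ι} (hj : Function.Injective j) (a : Fin k) (v : ι) :
    v ∉ ch (univ.image j)ᶜ j a.castSucc ↔ ∃ b, a ≤ b ∧ j b = v := by
  rw [mem_ch, Finset.mem_compl, Finset.mem_image]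
  push Not
  constructor
  · rintro ⟨⟨b, _, hb⟩, h⟩
    refine ⟨b, ?_, hb⟩
    by_contra hcon
    push Not at hcon
    exact h b (Fin.castSucc_lt_castSucc_iff.2 hcon) hb
  · rintro ⟨b, hab, hb⟩
    refine ⟨⟨b, Finset.mem_univ _, hb⟩, ?_⟩
    intro a' ha' h
    have h2 : a' = b := hj (h.trans hb.symm)
    rw [h2] at ha'
    exact absurd (Fin.castSucc_lt_castSucc_iff.1 ha') (not_lt.2 hab)

theorem push_top_term {n : ℕ} {c : (Fin (n + 1) → ι) → ℚ}
    (hc : ∀ (s : Equiv.Perm (Fin (n + 1))) (x : Fin (n + 1) → ι), c (x ∘ s) = ((Equiv.Perm.sign s : ℤ) : ℚ) * c x)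
    (j w : Fin (n + 1) → ι) :
    c j * el (mm ∘ (ch (univ.image j)ᶜ j ∘ (Fin.last (n + 1)).succAbove)) w =
      if StrictMono j then c j * el j w else 0 := by
  by_cases hj : Function.Injective j
  · split_ifs with hm
    · have : mm ∘ (ch (univ.image j)ᶜ j ∘ (Fin.last (n + 1)).succAbove) = j := by
        funext a
        rw [Function.comp_apply, Function.comp_apply, Fin.succAbove_last]
        apply mm_eq
        · rw [notMem_ch hj]
          exact ⟨a, le_refl _, rfl⟩
        · intro u hu
          rw [notMem_ch hj] at hu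
          obtain ⟨b, hab, hb⟩ := hu
          rw [← hb]
          exact hm.monotone hab
      rw [this]
    · rw [el_not_inj, mul_zero]
      intro hinj
      rw [Fin.strictMono_iff_lt_succ] at hm
      push Not at hm
      obtain ⟨i, hi⟩ := hm
      have heq : mm (ch (univ.image j)ᶜ j (i.castSucc).castSucc) = mm (ch (univ.image j)ᶜ j (i.succ).castSucc) := by
        have hne : ch (univ.image j)ᶜ j (i.succ).castSucc ≠ univ := by
          intro h
          have h2 : j i.succ ∉ ch (univ.image j)ᶜ j (i.succ).castSucc := by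
            rw [notMem_ch hj]
            exact ⟨_, le_refl _, rfl⟩
          exact h2 (h ▸ Finset.mem_univ _)
        apply mm_eq
        · have h1 := mm_notMem hne
          rw [notMem_ch hj] at h1 ⊢
          obtain ⟨b, hb1, hb2⟩ := h1
          exact ⟨b, le_trans (Fin.castSucc_lt_succ).le hb1, hb2⟩
        · intro u hu
          rw [notMem_ch hj] at hu
          obtain ⟨b, hb1, hb2⟩ := hu
          rcases eq_or_lt_of_le hb1 with h | h
          · rw [← hb2, ← h]
            refine le_trans (mm_le ?_) hi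
            rw [notMem_ch hj]
            exact ⟨_, le_refl _, rfl⟩
          · apply mm_le
            rw [notMem_ch hj]
            exact ⟨b, Fin.castSucc_lt_iff_succ_le.1 h, hb2⟩
      have h3 := hinj (a₁ := i.castSucc) (a₂ := i.succ) (by
        rw [Function.comp_apply, Function.comp_apply, Function.comp_apply, Function.comp_apply,
          Fin.succAbove_last]
        exact heq)
      exact absurd h3 (Fin.castSucc_lt_succ).ne
  · rw [alt_not_inj hc j hj]
    simp

theorem push_zz_top {n : ℕ} {c : (Fin (n + 1) → ι) → ℚ}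
    (hc : ∀ (s : Equiv.Perm (Fin (n + 1))) (x : Fin (n + 1) → ι), c (x ∘ s) = ((Equiv.Perm.sign s : ℤ) : ℚ) * c x)
    (w : Fin (n + 1) → ι) :
    push (fun x : Fin (n + 1) → Finset ι => zz c (Fin.cons univ x)) w = (-1) ^ (Fintype.card ι) * c w := by
  have h1 : push (fun x : Fin (n + 1) → Finset ι => zz c (Fin.cons univ x)) w
      = (-1) ^ (Fintype.card ι) * ∑ j : Fin (n + 1) → ι,
        c j * push (el (ch (univ.image j)ᶜ j ∘ (Fin.last (n + 1)).succAbove)) w := by
    unfold push
    simp only [zz_top hc]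
    rw [Finset.mul_sum]
    simp only [Finset.mul_sum]
    rw [Finset.sum_comm (s := (univ : Finset (Fin (n + 1) → ι)))]
    apply Finset.sum_congr rfl
    intro x _
    split_ifs
    · rfl
    · simp
  rw [h1]
  simp only [push_el]
  rw [Finset.sum_congr rfl (fun j _ => push_top_term hc j w), alt_eq_sum hc]

theorem cons_swap {V : Type} {k : ℕ} (p q : V) (x : Fin k → V) :
    (Fin.cons p (Fin.cons q x : Fin (k + 1) → V) : Fin (k + 2) → V) ∘ (Equiv.swap 0 1)
      = (Fin.cons q (Fin.cons p x : Fin (k + 1) → V) : Fin (k + 2) → V) := by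
  funext i
  rw [Function.comp_apply]
  refine Fin.cases ?_ (fun i => ?_) i
  · rw [Equiv.swap_apply_left]
    rfl
  · refine Fin.cases ?_ (fun i => ?_) i
    · have : (Fin.succ 0 : Fin (k + 2)) = 1 := rfl
      rw [this, Equiv.swap_apply_right]
      rfl
    · rw [Equiv.swap_apply_of_ne_of_ne]
      · rfl
      · exact Fin.succ_ne_zero _
      · intro h
        have := congrArg Fin.val h
        simp at this

theorem alt_swap {V : Type} {k : ℕ} {b : (Fin (k + 2) → V) → ℚ}
    (hb : ∀ (s : Equiv.Perm (Fin (k + 2))) (x : Fin (k + 2) → V), b (x ∘ s) = ((Equiv.Perm.sign s : ℤ) : ℚ) * b x)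
    (p q : V) (x : Fin k → V) :
    b (Fin.cons p (Fin.cons q x : Fin (k + 1) → V)) = - b (Fin.cons q (Fin.cons p x : Fin (k + 1) → V)) := by
  have h := hb (Equiv.swap 0 1) (Fin.cons q (Fin.cons p x : Fin (k + 1) → V))
  rw [cons_swap, Equiv.Perm.sign_swap (by simp)] at h
  rw [h]
  push_cast
  ring

theorem bd_push {k : ℕ} {b : (Fin (k + 2) → Finset ι) → ℚ}
    (hb : ∀ (s : Equiv.Perm (Fin (k + 2))) (x : Fin (k + 2) → Finset ι),
      b (x ∘ s) = ((Equiv.Perm.sign s : ℤ) : ℚ) * b x)
    (w : Fin k → ι) :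
    bd (push (fun x : Fin (k + 1) → Finset ι => b (Fin.cons univ x))) w
      = - push (fun x : Fin k → Finset ι => bd b (Fin.cons univ x)) w := by
  rw [bd_eq]
  unfold push
  rw [Finset.sum_comm, ← Equiv.sum_comp (Fin.consEquiv (fun _ : Fin (k + 1) => Finset ι)), Fintype.sum_prod_type,
    Finset.sum_comm, ← Finset.sum_neg_distrib]
  apply Finset.sum_congr rfl
  intro x _
  have hce : ∀ u : Finset ι, (Fin.consEquiv (fun _ : Fin (k + 1) => Finset ι)) (u, x)
    = (Fin.cons u x : Fin (k + 1) → Finset ι) := fun _ => rfl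
  simp only [hce]
  have h1 : ∀ (u : Finset ι) (v : ι), (mm ∘ (Fin.cons u x : Fin (k + 1) → Finset ι) = Fin.cons v w) ↔
      (mm u = v ∧ mm ∘ x = w) := by
    intro u v
    constructor
    · intro h
      refine ⟨congrFun h 0, ?_⟩
      funext i
      exact congrFun h i.succ
    · rintro ⟨h2, h3⟩
      funext i
      refine Fin.cases ?_ (fun i => ?_) i
      · exact h2
      · exact congrFun h3 i
  by_cases hx : mm ∘ x = w
  · rw [if_pos hx, bd_eq, ← Finset.sum_neg_distrib]
    apply Finset.sum_congr rfl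
    intro u _
    rw [Finset.sum_eq_single (mm u)]
    · rw [if_pos ((h1 u (mm u)).2 ⟨rfl, hx⟩)]
      exact alt_swap hb _ _ _
    · intro v _ hv
      rw [if_neg]
      intro h
      exact hv ((h1 u v).1 h).1.symm
    · intro h
      exact absurd (Finset.mem_univ _) h
  · rw [if_neg hx, neg_zero]
    apply Finset.sum_eq_zero
    intro u _
    apply Finset.sum_eq_zero
    intro v _
    rw [if_neg]
    intro h
    exact hx ((h1 u v).1 h).2

theorem cons_alt {V : Type} {k : ℕ} {b : (Fin (k + 1) → V) → ℚ}
    (hb : ∀ (s : Equiv.Perm (Fin (k + 1))) (x : Fin (k + 1) → V), b (x ∘ s) = ((Equiv.Perm.sign s : ℤ) : ℚ) * b x)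
    (v : V) (s : Equiv.Perm (Fin k)) (x : Fin k → V) :
    b (Fin.cons v (x ∘ s)) = ((Equiv.Perm.sign s : ℤ) : ℚ) * b (Fin.cons v x) := by
  have h : (Fin.cons v (x ∘ s) : Fin (k + 1) → V) = (Fin.cons v x : Fin (k + 1) → V) ∘
      (Equiv.Perm.decomposeFin.symm (0, s)) := by
    funext i
    rw [Function.comp_apply]
    refine Fin.cases ?_ (fun i => ?_) i
    · rw [Equiv.Perm.decomposeFin_symm_apply_zero]
      rfl
    · rw [Equiv.Perm.decomposeFin_symm_apply_succ]
      simp
  rw [h, hb, Equiv.Perm.decomposeFin.symm_sign]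
  simp

theorem push_alt {k : ℕ} {f : (Fin k → Finset ι) → ℚ}
    (hf : ∀ (s : Equiv.Perm (Fin k)) (x : Fin k → Finset ι), f (x ∘ s) = ((Equiv.Perm.sign s : ℤ) : ℚ) * f x)
    (s : Equiv.Perm (Fin k)) (v : Fin k → ι) :
    push f (v ∘ s) = ((Equiv.Perm.sign s : ℤ) : ℚ) * push f v := by
  unfold push
  rw [Finset.mul_sum, ← Equiv.sum_comp (Equiv.arrowCongr s.symm (Equiv.refl (Finset ι)))]
  apply Finset.sum_congr rfl
  intro x _
  have h1 : (Equiv.arrowCongr s.symm (Equiv.refl (Finset ι))) x = x ∘ s := by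
    funext i
    simp [Equiv.arrowCongr]
  rw [h1, hf]
  have h2 : (mm ∘ (x ∘ s) = v ∘ s) ↔ mm ∘ x = v := by
    constructor
    · intro h
      funext i
      have := congrFun h (s.symm i)
      simpa using this
    · intro h
      rw [← h]
      rfl
  by_cases h : mm ∘ x = v
  · rw [if_pos h, if_pos (h2.2 h)]
  · rw [if_neg h, if_neg (fun h' => h (h2.1 h')), mul_zero]

/-- The power construction. -/
def pw (F : ι → Set X) : Finset ι → Set (X × Finset ι) :=
  fun x => {p | ∀ v, (v ∈ x ↔ v ∈ p.2) ∨ p.1 ∈ F v}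

theorem push_chain (F : ι → Set X) {k : ℕ} {b : (Fin (k + 1) → Finset ι) → ℚ}
    (hb : IsChain (pw F) Set.univ (k + 1) b) :
    IsChain F Set.univ k (push (fun x : Fin k → Finset ι => b (Fin.cons univ x))) := by
  refine ⟨Set.toFinite _, ?_, ?_⟩
  · intro s v
    exact push_alt (fun s x => cons_alt hb.alt _ s x) s v
  · intro v hv
    refine ⟨fun i => Set.mem_univ _, ?_⟩
    unfold push at hv
    obtain ⟨x, _, hx⟩ := Finset.exists_ne_zero_of_sum_ne_zero hv
    have h1 : mm ∘ x = v := by
      by_contra hcon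
      rw [if_neg hcon] at hx
      exact hx rfl
    rw [if_pos h1] at hx
    obtain ⟨_, ⟨a, y⟩, hay⟩ := hb.mem _ hx
    refine ⟨a, ?_⟩
    intro i
    have hne : x i ≠ univ := by
      intro h
      apply hx
      apply alt_not_inj hb.alt
      intro hinj
      have := hinj (a₁ := (0 : Fin (k + 1))) (a₂ := i.succ) (by rw [Fin.cons_zero, Fin.cons_succ, h])
      exact absurd this.symm (Fin.succ_ne_zero i)
    have h2 := mm_notMem hne
    have h3 : mm (x i) = v i := congrFun h1 i
    rw [h3] at h2
    have e0 := hay 0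
    have e1 := hay i.succ
    rw [Fin.cons_zero] at e0
    rw [Fin.cons_succ] at e1
    rcases e0 (v i) with e | e
    · rcases e1 (v i) with e' | e'
      · exact absurd (e'.2 (e.1 (Finset.mem_univ _))) h2
      · exact e'
    · exact e

theorem zz_chain (F : ι → Set X) {k : ℕ} {c : (Fin k → ι) → ℚ} (hc : IsChain F Set.univ k c) :
    IsChain (pw F) Set.univ (k + 1) (zz c) := by
  refine ⟨Set.toFinite _, zz_alt c, ?_⟩
  intro x hx
  refine ⟨fun i => Set.mem_univ _, ?_⟩
  unfold zz at hx
  obtain ⟨A, _, hA⟩ := Finset.exists_ne_zero_of_sum_ne_zero hx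
  obtain ⟨j, _, hj⟩ := Finset.exists_ne_zero_of_sum_ne_zero hA
  have hd : Dis A j := by
    by_contra hcon
    rw [if_neg hcon] at hj
    exact hj rfl
  rw [if_pos hd] at hj
  have hcj : c j ≠ 0 := by
    intro h
    rw [h, mul_zero, zero_mul] at hj
    exact hj rfl
  have hel : el (ch A j) x ≠ 0 := by
    intro h
    rw [h, mul_zero] at hj
    exact hj rfl
  obtain ⟨s, hs⟩ := el_ne hel
  obtain ⟨_, a, ha⟩ := hc.mem j hcj
  refine ⟨(a, A), ?_⟩
  intro i v
  have h1 : x i = ch A j (s.symm i) := by
    have := congrFun hs (s.symm i)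
    simpa using this
  rw [h1]
  by_cases hv : ∃ b, j b = v
  · obtain ⟨b, hb⟩ := hv
    right
    rw [← hb]
    exact ha b
  · left
    rw [mem_ch]
    constructor
    · rintro (h | ⟨b, _, hb⟩)
      · exact h
      · exact absurd ⟨b, hb⟩ hv
    · intro h
      exact Or.inl h

theorem zz_not_bd (F : ι → Set X) {n : ℕ} {c : (Fin (n + 1) → ι) → ℚ} (hc : IsChain F Set.univ (n + 1) c)
    (hn : ¬ ∃ b : (Fin (n + 2) → ι) → ℚ, IsChain F Set.univ (n + 2) b ∧ bd b = c) :
    ¬ ∃ b : (Fin (n + 3) → Finset ι) → ℚ, IsChain (pw F) Set.univ (n + 3) b ∧ bd b = zz c := by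
  rintro ⟨b, hb, hbz⟩
  apply hn
  set e : ℚ := (-1) ^ (Fintype.card ι) with he
  have hee : e * e = 1 := by
    rw [he, ← mul_pow]
    norm_num
  refine ⟨fun x => - e * push (fun x : Fin (n + 2) → Finset ι => b (Fin.cons univ x)) x, ?_, ?_⟩
  · have h1 := push_chain F hb
    refine ⟨Set.toFinite _, ?_, ?_⟩
    · intro s x
      rw [h1.alt]
      ring
    · intro x hx
      apply h1.mem x
      intro h
      rw [h, mul_zero] at hx
      exact hx rfl
  · funext w
    have h1 := bd_push hb.alt w
    rw [hbz, push_zz_top hc.alt, bd_eq] at h1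
    rw [bd_eq, ← Finset.mul_sum, h1, ← he]
    linear_combination (c w) * hee

end Pool.Agent.R141.CM
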